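import Pool.Agent.N345.Two.Sharp
import Pool.Agent.N345.Mol.Near

set_option autoImplicit false
set_option linter.unusedSectionVars false

/-!
# Sharply two-transitive sets of permutations which are almost closed under composition
-/

namespace Pool.Agent.N345.Two

open Finset Pool.Agent.N345.Mol
open scoped Classical

/-- if two members of a set of `n (n - 1)` permutations agree in at most one point and almost all
products are in the set then `n` is a prime power -/
theorem main {n N : ℕ} (hn : 2 ≤ n) (hN : N = n * (n - 1)) {u : Fin N → Equiv.Perm (Fin n)}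
    (hu : ∀ i j x y, x ≠ y → u i x = u j x → u i y = u j y → i = j) (hpp : ¬ IsPrimePow n) :
    N ^ 2 ≤ 64 * nb u := by
  by_contra hcon
  push Not at hcon
  have hN0 : 0 < N := by
    rw [hN]
    exact Nat.mul_pos (by omega) (by omega)
  have hx : ∃ x y : Fin n, x ≠ y := by
    have : Nontrivial (Fin n) := Fin.nontrivial_iff_two_le.2 hn
    exact exists_pair_ne _
  obtain ⟨x0, y0, hxy⟩ := hx
  have hinj : Function.Injective u := by
    intro i j e
    exact hu i j x0 y0 hxy (by rw [e]) (by rw [e])
  obtain ⟨H, hH, -, hU⟩ := exists_group hinj hN0 hcon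
  have hfree : ∀ g ∈ H, ∀ x y, x ≠ y → g x = x → g y = y → g = 1 := by
    intro g hg x y hne hgx hgy
    obtain ⟨t, w, hw⟩ := quot (u := u) hN0 hH hg
    have h1 : ∀ z, g z = z → u w ((u t)⁻¹ z) = u t ((u t)⁻¹ z) := by
      intro z hz
      rw [hw, Equiv.Perm.mul_apply]
      simp [hz]
    have h2 : w = t := hu w t ((u t)⁻¹ x) ((u t)⁻¹ y)
      (fun e => hne ((u t)⁻¹.injective e)) (h1 x hgx) (h1 y hgy)
    rw [h2] at hw
    have h3 : g * u t = 1 * u t := by rw [one_mul]; exact hw.symm
    exact mul_right_cancel h3
  have hd := dvd_pairs hfree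
  have hd' : Nat.card H ∣ N := hN ▸ hd
  have hc := card_eq hinj hN0 hU hd'
  exact hpp (isPrimePow hfree (hc.trans hN) hn)

end Pool.Agent.N345.Two
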