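import Pool.Agent.N345.Sym.AxGroup

set_option autoImplicit false
set_option linter.unusedSectionVars false

/-!
# Sharply two-transitive groups have prime power degree
-/

namespace Pool.Agent.N345.Two

open Finset
open scoped Classical

theorem dvd_of_free {Γ α : Type*} [Group Γ] [Finite Γ] [MulAction Γ α] [Finite α] (M : Set α)
    (h1 : ∀ g : Γ, ∀ x ∈ M, g • x ∈ M) (h2 : ∀ g : Γ, g ≠ 1 → ∀ x ∈ M, g • x ≠ x) :
    Nat.card Γ ∣ Nat.card M := by
  let S : SubMulAction Γ α :=
    { carrier := M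
      smul_mem' := fun g x hx => h1 g x hx }
  have e1 : Nat.card S = Nat.card M := rfl
  have e2 : ∀ x : S, MulAction.stabilizer Γ x = ⊥ := by
    intro x
    rw [eq_bot_iff]
    intro g hg
    rw [MulAction.mem_stabilizer_iff] at hg
    rw [Subgroup.mem_bot]
    by_contra hne
    exact h2 g hne x.1 x.2 (congrArg Subtype.val hg)
  have := Fintype.ofFinite (Quotient (MulAction.orbitRel Γ S))
  rw [← e1, Nat.card_congr (MulAction.selfEquivSigmaOrbitsQuotientStabilizer Γ S), Nat.card_sigma]
  refine Finset.dvd_sum fun ω _ => ?_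
  rw [e2]
  have : Nat.card (Γ ⧸ (⊥ : Subgroup Γ)) = Nat.card Γ := by
    have := Subgroup.index_bot (G := Γ)
    exact this
  rw [this]

variable {n : ℕ} {H : Subgroup (Equiv.Perm (Fin n))}

/-- the order of a group without elements with two fixed points -/
theorem dvd_pairs (hfree : ∀ g ∈ H, ∀ x y, x ≠ y → g x = x → g y = y → g = 1) :
    Nat.card H ∣ n * (n - 1) := by
  have h := dvd_of_free (Γ := H) (α := Fin n × Fin n) {p | p.1 ≠ p.2}
    (by
      intro g p hp e
      exact hp (g.1.injective e))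
    (by
      intro g hg p hp e
      apply hg
      exact Subtype.ext (hfree g.1 g.2 p.1 p.2 hp (congrArg Prod.fst e) (congrArg Prod.snd e)))
  have e : Nat.card ({p | p.1 ≠ p.2} : Set (Fin n × Fin n)) = n * (n - 1) := by
    have e1 : ({p | p.1 ≠ p.2} : Set (Fin n × Fin n)) = ((univ : Finset (Fin n)).offDiag :
        Set (Fin n × Fin n)) := by
      ext p
      simp
    rw [e1, Nat.card_coe_set_eq, Set.ncard_coe_finset, offDiag_card, card_univ, Fintype.card_fin,
      Nat.mul_sub, mul_one]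
  rwa [e] at h

variable (hfree : ∀ g ∈ H, ∀ x y, x ≠ y → g x = x → g y = y → g = 1)
  (hcard : Nat.card H = n * (n - 1)) (hn : 2 ≤ n)
include hfree hcard

/-- the group is transitive on pairs -/
theorem trans {x y x' y' : Fin n} (h : x ≠ y) (h' : x' ≠ y') :
    ∃ g ∈ H, g x = x' ∧ g y = y' := by
  let f : H → {p : Fin n × Fin n // p.1 ≠ p.2} := fun g =>
    ⟨(g.1 x, g.1 y), fun e => h (g.1.injective e)⟩
  have hinj : Function.Injective f := by
    intro g k e
    have e1 : (g.1 x, g.1 y) = (k.1 x, k.1 y) := congrArg Subtype.val e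
    rw [Prod.mk.injEq] at e1
    have h2 := hfree ((k.1)⁻¹ * g.1) (H.mul_mem (H.inv_mem k.2) g.2) x y h
      (by rw [Equiv.Perm.mul_apply, e1.1]; simp) (by rw [Equiv.Perm.mul_apply, e1.2]; simp)
    exact Subtype.ext (inv_mul_eq_one.1 h2).symm
  have hbij : Function.Bijective f := by
    rw [Fintype.bijective_iff_injective_and_card]
    refine ⟨hinj, ?_⟩
    rw [← Nat.card_eq_fintype_card, hcard, Fintype.card_subtype]
    have e1 : (univ.filter fun p : Fin n × Fin n => p.1 ≠ p.2) = (univ : Finset (Fin n)).offDiag := by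
      ext p
      simp
    rw [e1, offDiag_card, card_univ, Fintype.card_fin, Nat.mul_sub, mul_one]
  obtain ⟨g, hg⟩ := hbij.2 ⟨(x', y'), h'⟩
  have e1 : (g.1 x, g.1 y) = (x', y') := congrArg Subtype.val hg
  rw [Prod.mk.injEq] at e1
  exact ⟨g.1, g.2, e1.1, e1.2⟩

include hn

/-- the number of elements without fixed points -/
theorem card_fpf : (univ.filter fun g : Equiv.Perm (Fin n) => g ∈ H ∧ ∀ x, g x ≠ x).card ≤
    n - 1 := by
  have hHc : (univ.filter fun g : Equiv.Perm (Fin n) => g ∈ H).card = n * (n - 1) := by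
    rw [← hcard, Nat.card_eq_fintype_card, Fintype.card_subtype]
  -- another point
  have hy : ∀ x : Fin n, ∃ y, x ≠ y := by
    intro x
    have : Nontrivial (Fin n) := Fin.nontrivial_iff_two_le.2 hn
    obtain ⟨y, hy⟩ := exists_ne x
    exact ⟨y, hy.symm⟩
  choose y hy using hy
  -- the elements with a fixed point
  have h1 : ∀ q : Fin n × Fin n, ∃ g : Equiv.Perm (Fin n), q.1 ≠ q.2 → g ∈ H ∧ g q.1 = q.1 ∧
      g (y q.1) = q.2 := by
    intro q
    by_cases h : q.1 = q.2
    · exact ⟨1, fun h' => absurd h h'⟩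
    · obtain ⟨g, hg, h2, h3⟩ := trans hfree hcard (hy q.1) h
      exact ⟨g, fun _ => ⟨hg, h2, h3⟩⟩
  choose g hg using h1
  set Q := univ.filter fun q : Fin n × Fin n => q.1 ≠ q.2 ∧ q.2 ≠ y q.1 with hQ
  have hQc : Q.card = n * (n - 2) := by
    have e1 : Q.card = ∑ x : Fin n, (univ.filter fun z => x ≠ z ∧ z ≠ y x).card := by
      rw [hQ]
      simp_rw [card_filter, Fintype.sum_prod_type]
    have e2 : ∀ x : Fin n, (univ.filter fun z => x ≠ z ∧ z ≠ y x).card = n - 2 := by
      intro x
      have e3 : (univ.filter fun z => x ≠ z ∧ z ≠ y x) = (univ.erase x).erase (y x) := by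
        ext z
        simp only [mem_filter, mem_univ, true_and, mem_erase, and_true]
        constructor
        · rintro ⟨a, b⟩; exact ⟨b, a.symm⟩
        · rintro ⟨a, b⟩; exact ⟨b.symm, a⟩
      rw [e3, card_erase_of_mem (mem_erase.2 ⟨(hy x).symm, mem_univ _⟩),
        card_erase_of_mem (mem_univ _), card_univ, Fintype.card_fin]
      rfl
    rw [e1, sum_congr rfl fun x _ => e2 x, sum_const, card_univ, Fintype.card_fin, smul_eq_mul]
  have h2 : Q.card ≤ (univ.filter fun g : Equiv.Perm (Fin n) =>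
      g ∈ H ∧ g ≠ 1 ∧ ∃ x, g x = x).card := by
    refine card_le_card_of_injOn g ?_ ?_
    · intro q hq
      simp only [hQ, coe_filter, mem_univ, true_and, Set.mem_ofPred_eq] at hq ⊢
      obtain ⟨a, b, c⟩ := hg q hq.1
      refine ⟨a, ?_, q.1, b⟩
      intro e
      rw [e] at c
      exact hq.2 c.symm
    · intro q hq r hr e
      simp only [hQ, coe_filter, mem_univ, true_and, Set.mem_ofPred_eq] at hq hr
      obtain ⟨a, b, c⟩ := hg q hq.1
      obtain ⟨a', b', c'⟩ := hg r hr.1
      have h3 : q.1 = r.1 := by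
        by_contra hne
        have h4 := hfree _ a _ _ hne b (by rw [e]; exact b')
        rw [h4] at c
        exact hq.2 c.symm
      refine Prod.ext h3 ?_
      rw [← c, ← c', e, h3]
  have h3 : (univ.filter fun g : Equiv.Perm (Fin n) => g ∈ H ∧ ∀ x, g x ≠ x).card +
      ((univ.filter fun g : Equiv.Perm (Fin n) => g ∈ H ∧ g ≠ 1 ∧ ∃ x, g x = x).card + 1) ≤
      (univ.filter fun g : Equiv.Perm (Fin n) => g ∈ H).card := by
    have d1 : (1 : Equiv.Perm (Fin n)) ∉ (univ.filter fun g : Equiv.Perm (Fin n) =>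
        g ∈ H ∧ g ≠ 1 ∧ ∃ x, g x = x) := by simp
    rw [← card_insert_of_notMem d1, ← card_union_of_disjoint]
    · refine card_le_card ?_
      intro k hk
      simp only [mem_union, mem_insert, mem_filter, mem_univ, true_and] at hk ⊢
      rcases hk with hk | rfl | hk
      · exact hk.1
      · exact H.one_mem
      · exact hk.1
    · rw [disjoint_left]
      intro k hk hk'
      simp only [mem_insert, mem_filter, mem_univ, true_and] at hk hk'
      rcases hk' with rfl | hk'
      · exact hk.2 ⟨0, by omega⟩ rfl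
      · obtain ⟨x, hx⟩ := hk'.2.2
        exact hk.2 x hx
  rw [hHc] at h3
  rw [hQc] at h2
  obtain ⟨m, rfl⟩ : ∃ m, n = m + 2 := ⟨n - 2, by omega⟩
  have e1 : m + 2 - 1 = m + 1 := rfl
  have e2 : m + 2 - 2 = m := rfl
  rw [e1] at h3 ⊢
  rw [e2] at h2
  have : (m + 2) * (m + 1) = (m + 2) * m + (m + 2) := by ring
  omega

/-- the degree is a prime power -/
theorem isPrimePow : IsPrimePow n := by
  obtain ⟨p, hp, hpn⟩ := Nat.exists_prime_and_dvd (show n ≠ 1 by omega)
  have : Fact p.Prime := ⟨hp⟩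
  obtain ⟨u0, hu0⟩ := exists_prime_orderOf_dvd_card' (G := H) p
    (by rw [hcard]; exact hpn.mul_right _)
  set u : Equiv.Perm (Fin n) := u0.1 with hu
  have huH : u ∈ H := u0.2
  have huo : orderOf u = p := by
    rw [hu, Subgroup.orderOf_coe]; exact hu0
  have hu1 : u ≠ 1 := by
    intro e
    rw [e, orderOf_one] at huo
    exact hp.one_lt.ne huo
  have hufix : ∀ x, u x ≠ x := by
    intro x hx
    have hz : ∀ σ ∈ Subgroup.zpowers u, σ x = x ∧ σ ∈ H := by
      intro σ hσ
      rw [Subgroup.mem_zpowers_iff] at hσ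
      obtain ⟨k, rfl⟩ := hσ
      refine ⟨?_, H.zpow_mem huH k⟩
      have h1 : u ∈ MulAction.stabilizer (Equiv.Perm (Fin n)) x := hx
      exact (MulAction.stabilizer (Equiv.Perm (Fin n)) x).zpow_mem h1 k
    have h1 := Pool.Agent.N345.Sym.card_dvd_free (Subgroup.zpowers u) (univ.erase x)
      (by
        intro σ hσ y hy
        rw [mem_erase] at hy ⊢
        refine ⟨?_, mem_univ _⟩
        intro e
        apply hy.1
        apply σ.injective
        rw [e, (hz σ hσ).1])
      (by
        intro σ hσ hne y hy e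
        rw [mem_erase] at hy
        exact hne (hfree σ (hz σ hσ).2 x y hy.1.symm (hz σ hσ).1 e))
    rw [Nat.card_zpowers, huo, card_erase_of_mem (mem_univ _), card_univ, Fintype.card_fin] at h1
    have h2 : p ∣ 1 := by
      have h3 := Nat.dvd_sub hpn h1
      rwa [show n - (n - 1) = 1 by omega] at h3
    exact hp.one_lt.ne' (Nat.dvd_one.1 h2)
  set C : Subgroup (Equiv.Perm (Fin n)) := H ⊓ Subgroup.centralizer {u} with hC
  have hCmem : ∀ c, c ∈ C ↔ c ∈ H ∧ u * c = c * u := by
    intro c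
    rw [hC, Subgroup.mem_inf, Subgroup.mem_centralizer_singleton_iff]
    exact ⟨fun h => ⟨h.1, h.2.symm⟩, fun h => ⟨h.1, h.2.symm⟩⟩
  have hCfpf : ∀ c ∈ C, c ≠ 1 → ∀ x, c x ≠ x := by
    intro c hc hne x hx
    rw [hCmem] at hc
    apply hne
    refine hfree c hc.1 x (u x) (hufix x).symm hx ?_
    have := congrArg (fun g : Equiv.Perm (Fin n) => g x) hc.2
    simp only [Equiv.Perm.mul_apply] at this
    rw [← this, hx]
  have hCdvd : Nat.card C ∣ n := by
    have := Pool.Agent.N345.Sym.card_dvd_free C univ (fun _ _ _ _ => mem_univ _)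
      (fun c hc hne x _ => hCfpf c hc hne x)
    rwa [card_univ, Fintype.card_fin] at this
  set Hf : Finset (Equiv.Perm (Fin n)) := univ.filter fun g => g ∈ H with hHf
  have hHc : Hf.card = n * (n - 1) := by
    rw [← hcard, Nat.card_eq_fintype_card, Fintype.card_subtype]
  set T := Hf.image fun h => h * u * h⁻¹ with hT
  have hTfpf : T ⊆ univ.filter fun g : Equiv.Perm (Fin n) => g ∈ H ∧ ∀ x, g x ≠ x := by
    intro t ht
    rw [hT, mem_image] at ht
    obtain ⟨h, hh, rfl⟩ := ht
    rw [hHf, mem_filter] at hh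
    rw [mem_filter]
    refine ⟨mem_univ _, H.mul_mem (H.mul_mem hh.2 huH) (H.inv_mem hh.2), fun x e => ?_⟩
    apply hufix (h⁻¹ x)
    apply h.injective
    rw [Equiv.Perm.mul_apply, Equiv.Perm.mul_apply] at e
    rw [e]
    simp
  have hfib : Hf.card ≤ Nat.card C * T.card := by
    refine card_le_mul_card_image Hf (Nat.card C) ?_
    intro t ht
    rw [mem_image] at ht
    obtain ⟨h0, hh0, rfl⟩ := ht
    rw [Nat.card_eq_fintype_card, ← Fintype.card_coe]
    refine Fintype.card_le_of_injective (fun k => (⟨h0⁻¹ * k.1, ?_⟩ : C)) ?_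
    · have hk := mem_filter.1 k.2
      have hk1 : k.1 ∈ H := (mem_filter.1 hk.1).2
      have hh1 : h0 ∈ H := (mem_filter.1 hh0).2
      rw [hCmem]
      refine ⟨H.mul_mem (H.inv_mem hh1) hk1, ?_⟩
      have e := hk.2
      have e1 : k.1 * u = h0 * u * h0⁻¹ * k.1 := by
        have e2 := congrArg (fun g => g * k.1) e
        simp only [inv_mul_cancel_right] at e2
        exact e2
      calc u * (h0⁻¹ * k.1) = h0⁻¹ * (h0 * u * h0⁻¹ * k.1) := by group
        _ = h0⁻¹ * (k.1 * u) := by rw [e1]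
        _ = h0⁻¹ * k.1 * u := by group
    · intro k k' e
      have e1 : h0⁻¹ * k.1 = h0⁻¹ * k'.1 := congrArg Subtype.val e
      exact Subtype.ext (mul_left_cancel e1)
  have hTc := (card_le_card hTfpf).trans (card_fpf hfree hcard hn)
  have hCle : Nat.card C ≤ n := Nat.le_of_dvd (by omega) hCdvd
  have hCn : Nat.card C = n := by
    rw [hHc] at hfib
    have h1 : n * (n - 1) ≤ Nat.card C * (n - 1) := hfib.trans (Nat.mul_le_mul_left _ hTc)
    have h2 := Nat.le_of_mul_le_mul_right h1 (by omega)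
    omega
  have hTeq : T = univ.filter fun g : Equiv.Perm (Fin n) => g ∈ H ∧ ∀ x, g x ≠ x := by
    refine eq_of_subset_of_card_le hTfpf ((card_fpf hfree hcard hn).trans ?_)
    rw [hHc, hCn] at hfib
    exact Nat.le_of_mul_le_mul_left hfib (by omega)
  have hpow : ∀ c ∈ C, c ^ p = 1 := by
    intro c hc
    by_cases h1 : c = 1
    · rw [h1, one_pow]
    have h2 : c ∈ T := by
      rw [hTeq, mem_filter]
      exact ⟨mem_univ _, ((hCmem c).1 hc).1, hCfpf c hc h1⟩
    rw [hT, mem_image] at h2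
    obtain ⟨h, -, rfl⟩ := h2
    rw [conj_pow, ← huo, pow_orderOf_eq_one, mul_one, mul_inv_cancel]
  have hpg : IsPGroup p C := by
    intro c
    refine ⟨1, ?_⟩
    rw [pow_one]
    exact Subtype.ext (hpow c.1 c.2)
  obtain ⟨k, hk⟩ := IsPGroup.iff_card.1 hpg
  rw [hCn] at hk
  rw [isPrimePow_nat_iff]
  refine ⟨p, k, hp, ?_, hk.symm⟩
  rcases Nat.eq_zero_or_pos k with h0 | h0
  · rw [h0, pow_zero] at hk
    omega
  · exact h0

end Pool.Agent.N345.Two
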